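import Mathlib

set_option autoImplicit false

namespace Pool.Agent.Results.MP_362e7f_co.Disproof

/-- A hypergraph pair `(H, F)` on the common finite vertex set `V` (vertices are natural numbers).
Edges are finite subsets of `V`; both edge collections are multisets, so repeated edges are allowed
and `Multiset.card` counts edges with multiplicity. -/
structure HPair where
  /-- the common vertex set -/
  V : Finset ℕ
  /-- the edges of `H`, with multiplicity -/
  H : Multiset (Finset ℕ)
  /-- the edges of `F`, with multiplicity -/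
  F : Multiset (Finset ℕ)
  H_sub : ∀ e ∈ H, e ⊆ V
  F_sub : ∀ e ∈ F, e ⊆ V

/-- The induced pair `(H[S], F[S])` on `S ⊆ V`: all edges that lie inside `S`. -/
def HPair.induce (P : HPair) (S : Finset ℕ) : HPair where
  V := S
  H := P.H.filter (fun e => e ⊆ S)
  F := P.F.filter (fun e => e ⊆ S)
  H_sub := fun _ he => (Multiset.mem_filter.mp he).2
  F_sub := fun _ he => (Multiset.mem_filter.mp he).2

/-- `α_H(F)`: the maximum of `e(H[I])` over all `I ⊆ V` that are independent in `F`,
i.e. with `e(F[I]) = 0`. -/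
def HPair.alpha (P : HPair) : ℕ :=
  (P.V.powerset.filter (fun I => (P.induce I).F.card = 0)).sup (fun I => (P.induce I).H.card)

/-- Hypotheses (*) of the question: `Fam` is a hereditary family of `(h, f, f')`-bounded pairs,
`β < h` is real with `ex(n, Fam) = O(n ^ β)`, `f < h - β`, and in no pair of `Fam` is an edge of `F`
contained in an edge of `H`. -/
structure Hyp (Fam : Set HPair) (h f f' : ℕ) (β : ℝ) : Prop where
  h_pos : 0 < h
  f_pos : 0 < f
  f_le : f ≤ f'
  hereditary : ∀ P ∈ Fam, ∀ S, S ⊆ P.V → P.induce S ∈ Fam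
  H_bdd : ∀ P ∈ Fam, ∀ e ∈ P.H, e.card ≤ h
  F_bdd : ∀ P ∈ Fam, ∀ e ∈ P.F, f ≤ e.card ∧ e.card ≤ f'
  beta_lt : β < h
  ex_bdd : ∃ C : ℝ, ∀ n : ℕ, ∀ P ∈ Fam, P.V.card = n → (P.alpha : ℝ) ≤ C * (n : ℝ) ^ β
  f_lt : (f : ℝ) < h - β
  no_contain : ∀ P ∈ Fam, ∀ e ∈ P.F, ∀ e' ∈ P.H, ¬ e ⊆ e'

/-- The conclusion asked for: there are constants `k₀` and `c > 0` such that for every `n`, every
`(H, F) ∈ Fam` on `n` vertices and every real `k ≥ k₀` with `e(H) ≥ k n ^ β`, one has
`e(F) ≥ c k ^ (f / (h - β))`. -/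
def Supersat (Fam : Set HPair) (h f : ℕ) (β : ℝ) : Prop :=
  ∃ k₀ c : ℝ, 0 < c ∧ ∀ n : ℕ, ∀ P ∈ Fam, P.V.card = n → ∀ k : ℝ, k₀ ≤ k →
    k * (n : ℝ) ^ β ≤ P.H.card → c * k ^ ((f : ℝ) / (h - β)) ≤ P.F.card

/-! ### The family -/

/-- `H`-edges: contain `{0, …, t-1}` and meet every residue class mod `s` of the remaining
vertices at most once. -/
def PH (t s : ℕ) (e : Finset ℕ) : Prop :=
  Finset.range t ⊆ e ∧ ∀ x ∈ e \ Finset.range t, ∀ y ∈ e \ Finset.range t, x % s = y % s → x = y

/-- `F`-edges: contain `{0, …, t-1}`, the rest is inside one residue class mod `s`. -/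
def PF (t s : ℕ) (e : Finset ℕ) : Prop :=
  Finset.range t ⊆ e ∧ ∀ x ∈ e \ Finset.range t, ∀ y ∈ e \ Finset.range t, x % s = y % s

instance (t s : ℕ) : DecidablePred (PH t s) := fun e => by unfold PH; infer_instance
instance (t s : ℕ) : DecidablePred (PF t s) := fun e => by unfold PF; infer_instance

/-- the pair on vertex set `V` : `H` all `(t+s)`-sets with `PH`, `F` all `(t+2)`-sets with `PF`. -/
def star (t s : ℕ) (V : Finset ℕ) : HPair where
  V := V
  H := ((V.powersetCard (t + s)).filter (PH t s)).val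
  F := ((V.powersetCard (t + 2)).filter (PF t s)).val
  H_sub := fun e he => by
    have := (Finset.mem_filter.mp (Finset.mem_val.mp he)).1
    exact (Finset.mem_powersetCard.mp this).1
  F_sub := fun e he => by
    have := (Finset.mem_filter.mp (Finset.mem_val.mp he)).1
    exact (Finset.mem_powersetCard.mp this).1

theorem mem_star_H {t s : ℕ} {V e : Finset ℕ} :
    e ∈ (star t s V).H ↔ (e ⊆ V ∧ e.card = t + s) ∧ PH t s e := by
  simp [star, Finset.mem_powersetCard]

theorem mem_star_F {t s : ℕ} {V e : Finset ℕ} :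
    e ∈ (star t s V).F ↔ (e ⊆ V ∧ e.card = t + 2) ∧ PF t s e := by
  simp [star, Finset.mem_powersetCard]

theorem HPair.ext' {P Q : HPair} (hV : P.V = Q.V) (hH : P.H = Q.H) (hF : P.F = Q.F) : P = Q := by
  cases P; cases Q; simp_all

theorem star_induce (t s : ℕ) (V S : Finset ℕ) (hS : S ⊆ V) :
    (star t s V).induce S = star t s S := by
  have key : ∀ (m : ℕ) (p : Finset ℕ → Prop) [DecidablePred p],
      Multiset.filter (fun e => e ⊆ S) ((V.powersetCard m).filter p).val
        = ((S.powersetCard m).filter p).val := by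
    intro m p _
    rw [← Finset.filter_val]
    congr 1
    ext e
    simp only [Finset.mem_filter, Finset.mem_powersetCard]
    constructor
    · rintro ⟨⟨⟨h1, h2⟩, h3⟩, h4⟩
      exact ⟨⟨h4, h2⟩, h3⟩
    · rintro ⟨⟨h1, h2⟩, h3⟩
      exact ⟨⟨⟨h1.trans hS, h2⟩, h3⟩, h1⟩
  apply HPair.ext'
  · rfl
  · exact key _ _
  · exact key _ _

theorem sdiff_card {t m : ℕ} {e : Finset ℕ} (h1 : Finset.range t ⊆ e) (h2 : e.card = t + m) :
    (e \ Finset.range t).card = m := by
  rw [Finset.card_sdiff_of_subset h1, h2, Finset.card_range]; omega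

/-- No `F`-edge inside an `H`-edge. -/
theorem star_no_contain {t s : ℕ} {V e e' : Finset ℕ} (he : e ∈ (star t s V).F)
    (he' : e' ∈ (star t s V).H) : ¬ e ⊆ e' := by
  rw [mem_star_F] at he
  rw [mem_star_H] at he'
  obtain ⟨⟨h1, h2⟩, h3, h4⟩ := he
  obtain ⟨⟨h1', h2'⟩, h3', h4'⟩ := he'
  intro hsub
  have hc := sdiff_card h3 h2
  have h1lt : 1 < (e \ Finset.range t).card := by omega
  obtain ⟨x, hx, y, hy, hxy⟩ := Finset.one_lt_card.mp h1lt
  have hsub' : e \ Finset.range t ⊆ e' \ Finset.range t := Finset.sdiff_subset_sdiff hsub le_rfl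
  exact hxy (h4' x (hsub' hx) y (hsub' hy) (h4 x hx y hy))

/-- Two different `H`-edges span an `F`-edge. -/
theorem star_two {t s : ℕ} (hs : 0 < s) {V e e' : Finset ℕ} (he : e ∈ (star t s V).H)
    (he' : e' ∈ (star t s V).H) (hne : e ≠ e') :
    ∃ g ∈ (star t s V).F, g ⊆ e ∪ e' := by
  rw [mem_star_H] at he he'
  obtain ⟨⟨h1, h2⟩, h3, h4⟩ := he
  obtain ⟨⟨h1', h2'⟩, h3', h4'⟩ := he'
  have hnot : ¬ e ⊆ e' := fun hsub => hne (Finset.eq_of_subset_of_card_le hsub (by omega))
  obtain ⟨x, hx, hxe'⟩ := Finset.not_subset.mp hnot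
  have hxt : x ∉ Finset.range t := fun h => hxe' (h3' h)
  -- the residues of `e' \ range t` fill everything
  have himg : ((e' \ Finset.range t).image (fun z => z % s)) = Finset.range s := by
    apply Finset.eq_of_subset_of_card_le
    · intro z hz
      obtain ⟨w, _, rfl⟩ := Finset.mem_image.mp hz
      exact Finset.mem_range.mpr (Nat.mod_lt _ hs)
    · rw [Finset.card_range, Finset.card_image_of_injOn, sdiff_card h3' h2']
      intro a ha b hb hab
      exact h4' a ha b hb hab
  have hxm : x % s ∈ (e' \ Finset.range t).image (fun z => z % s) := by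
    rw [himg]; exact Finset.mem_range.mpr (Nat.mod_lt _ hs)
  obtain ⟨y, hy, hyx⟩ := Finset.mem_image.mp hxm
  have hyx' : y % s = x % s := hyx
  have hye' : y ∈ e' := (Finset.mem_sdiff.mp hy).1
  have hyt : y ∉ Finset.range t := (Finset.mem_sdiff.mp hy).2
  have hxy : x ≠ y := fun h => hxe' (h ▸ hye')
  refine ⟨Finset.range t ∪ {x, y}, ?_, ?_⟩
  · rw [mem_star_F]
    have hsd : (Finset.range t ∪ {x, y}) \ Finset.range t = {x, y} := by
      ext z
      simp only [Finset.mem_sdiff, Finset.mem_union, Finset.mem_insert, Finset.mem_singleton]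
      constructor
      · rintro ⟨h | h, h'⟩
        · exact absurd h h'
        · exact h
      · rintro (rfl | rfl)
        · exact ⟨Or.inr (Or.inl rfl), hxt⟩
        · exact ⟨Or.inr (Or.inr rfl), hyt⟩
    refine ⟨⟨?_, ?_⟩, Finset.subset_union_left, ?_⟩
    · intro z hz
      rcases Finset.mem_union.mp hz with hz | hz
      · exact h1 (h3 hz)
      · rcases Finset.mem_insert.mp hz with rfl | hz
        · exact h1 hx
        · rw [Finset.mem_singleton.mp hz]; exact h1' hye'
    · rw [Finset.card_union_of_disjoint, Finset.card_range, Finset.card_pair hxy]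
      rw [Finset.disjoint_right]
      intro z hz
      rcases Finset.mem_insert.mp hz with rfl | hz
      · exact hxt
      · rw [Finset.mem_singleton.mp hz]; exact hyt
    · rw [hsd]
      intro a ha b hb
      simp only [Finset.mem_insert, Finset.mem_singleton] at ha hb
      rcases ha with rfl | rfl <;> rcases hb with rfl | rfl <;> simp [hyx']
  · intro z hz
    rcases Finset.mem_union.mp hz with hz | hz
    · exact Finset.mem_union_left _ (h3 hz)
    · rcases Finset.mem_insert.mp hz with rfl | hz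
      · exact Finset.mem_union_left _ hx
      · rw [Finset.mem_singleton.mp hz]; exact Finset.mem_union_right _ hye'

theorem star_alpha_le {t s : ℕ} (hs : 0 < s) (V : Finset ℕ) : (star t s V).alpha ≤ 1 := by
  unfold HPair.alpha
  apply Finset.sup_le
  intro I hI
  rw [Finset.mem_filter, Finset.mem_powerset] at hI
  obtain ⟨hIV, hI0⟩ := hI
  have hIV' : I ⊆ V := hIV
  rw [star_induce t s V I hIV'] at hI0 ⊢
  by_contra hcon
  push Not at hcon
  have hcard : 1 < ((I.powersetCard (t + s)).filter (PH t s)).card := hcon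
  obtain ⟨e, he, e', he', hne⟩ := Finset.one_lt_card.mp hcard
  obtain ⟨g, hg, _⟩ := star_two (V := I) hs (Finset.mem_val.mpr he) (Finset.mem_val.mpr he') hne
  have : 0 < (star t s I).F.card := Multiset.card_pos_iff_exists_mem.mpr ⟨g, hg⟩
  omega

theorem star_alpha_empty {t s : ℕ} (hs : 0 < s) : (star t s ∅).alpha = 0 := by
  unfold HPair.alpha
  rw [← Nat.le_zero]
  apply Finset.sup_le
  intro I hI
  rw [Finset.mem_filter, Finset.mem_powerset] at hI
  obtain ⟨hIV, hI0⟩ := hI
  have hIV' : I ⊆ ∅ := hIV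
  rw [star_induce t s ∅ I hIV']
  have hI : I = ∅ := Finset.subset_empty.mp hIV'
  subst hI
  rw [Nat.le_zero, Multiset.card_eq_zero, Multiset.eq_zero_iff_forall_notMem]
  intro e he
  rw [mem_star_H] at he
  obtain ⟨⟨h1, h2⟩, _⟩ := he
  rw [Finset.subset_empty.mp h1] at h2
  simp at h2
  omega

/-! ### Counting in the large members -/

/-- vertex of class `i` number `q` -/
def vtx (t s : ℕ) (i q : ℕ) : ℕ := s * (q + t) + i

theorem vtx_mod {t s i q : ℕ} (hi : i < s) : vtx t s i q % s = i := by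
  unfold vtx
  rw [Nat.mul_add_mod, Nat.mod_eq_of_lt hi]

theorem vtx_inj {t s i q i' q' : ℕ} (hi : i < s) (hi' : i' < s)
    (h : vtx t s i q = vtx t s i' q') : i = i' ∧ q = q' := by
  have h1 : i = i' := by rw [← vtx_mod (t := t) (q := q) hi, h, vtx_mod hi']
  subst h1
  refine ⟨rfl, ?_⟩
  unfold vtx at h
  have : s * (q + t) = s * (q' + t) := by omega
  have := Nat.eq_of_mul_eq_mul_left (by omega) this
  omega

theorem vtx_ge {t s i q : ℕ} (hi : i < s) : vtx t s i q ∉ Finset.range t := by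
  rw [Finset.mem_range, not_lt]
  unfold vtx
  have : 1 ≤ s := by omega
  nlinarith

/-- the big vertex set -/
def bigV (t s N : ℕ) : Finset ℕ :=
  Finset.range t ∪ (Finset.univ : Finset (Fin s × Fin N)).image (fun p => vtx t s p.1 p.2)

theorem bigV_sdiff_card_le (t s N : ℕ) : (bigV t s N \ Finset.range t).card ≤ s * N := by
  have : bigV t s N \ Finset.range t ⊆
      (Finset.univ : Finset (Fin s × Fin N)).image (fun p => vtx t s p.1 p.2) := by
    intro z hz
    rw [Finset.mem_sdiff, bigV, Finset.mem_union] at hz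
    rcases hz with ⟨h | h, h'⟩
    · exact absurd h h'
    · exact h
  refine (Finset.card_le_card this).trans ?_
  refine Finset.card_image_le.trans ?_
  simp

theorem bigV_card_le (t s N : ℕ) : (bigV t s N).card ≤ t + s * N := by
  unfold bigV
  refine (Finset.card_union_le _ _).trans ?_
  refine Nat.add_le_add (by simp) ?_
  refine Finset.card_image_le.trans ?_
  simp

theorem F_card_le (t s N : ℕ) : (star t s (bigV t s N)).F.card ≤ (s * N) ^ 2 := by
  have h1 : ((bigV t s N).powersetCard (t + 2)).filter (PF t s) ⊆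
      ((bigV t s N \ Finset.range t).powersetCard 2).image (fun g => Finset.range t ∪ g) := by
    intro e he
    rw [Finset.mem_filter, Finset.mem_powersetCard] at he
    obtain ⟨⟨h1, h2⟩, h3, _⟩ := he
    rw [Finset.mem_image]
    refine ⟨e \ Finset.range t, ?_, ?_⟩
    · rw [Finset.mem_powersetCard]
      exact ⟨Finset.sdiff_subset_sdiff h1 le_rfl, sdiff_card h3 h2⟩
    · rw [Finset.union_comm]; exact Finset.sdiff_union_of_subset h3
  have h2 : (star t s (bigV t s N)).F.card
      = (((bigV t s N).powersetCard (t + 2)).filter (PF t s)).card := rfl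
  rw [h2]
  refine (Finset.card_le_card h1).trans ?_
  refine Finset.card_image_le.trans ?_
  rw [Finset.card_powersetCard]
  refine (Nat.choose_le_pow _ _).trans ?_
  exact Nat.pow_le_pow_left (bigV_sdiff_card_le t s N) 2

theorem H_card_ge (t s N : ℕ) : N ^ s ≤ (star t s (bigV t s N)).H.card := by
  have h2 : (star t s (bigV t s N)).H.card
      = (((bigV t s N).powersetCard (t + s)).filter (PH t s)).card := rfl
  rw [h2]
  have hcard : (Finset.univ : Finset (Fin s → Fin N)).card = N ^ s := by simp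
  rw [← hcard]
  apply Finset.card_le_card_of_injOn
    (fun g => Finset.range t ∪ (Finset.univ : Finset (Fin s)).image (fun i : Fin s => vtx t s i (g i)))
  · intro g _
    have hdisj : Disjoint (Finset.range t)
        ((Finset.univ : Finset (Fin s)).image (fun i : Fin s => vtx t s i (g i))) := by
      rw [Finset.disjoint_right]
      intro z hz
      obtain ⟨i, _, rfl⟩ := Finset.mem_image.mp hz
      exact vtx_ge i.2
    rw [Finset.mem_coe, Finset.mem_filter, Finset.mem_powersetCard]
    refine ⟨⟨?_, ?_⟩, Finset.subset_union_left, ?_⟩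
    · apply Finset.union_subset_union le_rfl
      intro z hz
      obtain ⟨i, _, rfl⟩ := Finset.mem_image.mp hz
      exact Finset.mem_image.mpr ⟨(i, g i), Finset.mem_univ _, rfl⟩
    · rw [Finset.card_union_of_disjoint hdisj, Finset.card_range,
        Finset.card_image_of_injective, Finset.card_univ, Fintype.card_fin]
      intro i i' hii
      exact Fin.ext (vtx_inj i.2 i'.2 hii).1
    · have hsd : (Finset.range t ∪
          (Finset.univ : Finset (Fin s)).image (fun i : Fin s => vtx t s i (g i)))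
          \ Finset.range t = (Finset.univ : Finset (Fin s)).image (fun i : Fin s => vtx t s i (g i)) := by
        rw [Finset.union_sdiff_left]
        exact Finset.sdiff_eq_self_of_disjoint hdisj.symm
      rw [hsd]
      intro x hx y hy hxy
      obtain ⟨i, _, rfl⟩ := Finset.mem_image.mp hx
      obtain ⟨j, _, rfl⟩ := Finset.mem_image.mp hy
      rw [vtx_mod i.2, vtx_mod j.2] at hxy
      rw [Fin.ext hxy]
  · intro g _ g' _ hgg
    have hgg' : Finset.range t ∪ (Finset.univ : Finset (Fin s)).image (fun i : Fin s => vtx t s i (g i))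
      = Finset.range t ∪ (Finset.univ : Finset (Fin s)).image (fun i : Fin s => vtx t s i (g' i)) := hgg
    funext i
    have h1 : vtx t s i (g i) ∈ Finset.range t ∪
        (Finset.univ : Finset (Fin s)).image (fun i : Fin s => vtx t s i (g' i)) := by
      rw [← hgg']
      exact Finset.mem_union_right _ (Finset.mem_image.mpr ⟨i, Finset.mem_univ _, rfl⟩)
    rcases Finset.mem_union.mp h1 with h1 | h1
    · exact absurd h1 (vtx_ge i.2)
    · obtain ⟨j, _, hj⟩ := Finset.mem_image.mp h1
      obtain ⟨h3, h4⟩ := vtx_inj j.2 i.2 hj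
      have : j = i := Fin.ext h3
      subst this
      exact Fin.ext h4.symm

/-! ### The family satisfies (*) -/

/-- the family of all these pairs (all finite vertex sets) -/
def starFam (t s : ℕ) : Set HPair := Set.range (star t s)

theorem starFam_hyp {h f f' : ℕ} {β : ℝ} (hf : 3 ≤ f) (hff : f ≤ f') (hβ0 : 0 ≤ β)
    (hβ : (f : ℝ) < h - β) : Hyp (starFam (f - 2) (h - f + 2)) h f f' β := by
  have hfh' : (f : ℝ) < h := by linarith
  have hfh : f < h := by exact_mod_cast hfh'
  have hs : 0 < h - f + 2 := by omega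
  refine ⟨by omega, by omega, hff, ?_, ?_, ?_, by
    have : (0 : ℝ) ≤ f := Nat.cast_nonneg f
    linarith, ⟨1, ?_⟩, hβ, ?_⟩
  · rintro P ⟨V, rfl⟩ S hS
    rw [star_induce _ _ V S hS]
    exact ⟨S, rfl⟩
  · rintro P ⟨V, rfl⟩ e he
    rw [mem_star_H] at he
    omega
  · rintro P ⟨V, rfl⟩ e he
    rw [mem_star_F] at he
    omega
  · rintro n P ⟨V, rfl⟩ hn
    rcases Finset.eq_empty_or_nonempty V with rfl | hV
    · rw [star_alpha_empty hs, one_mul]
      simp only [Nat.cast_zero]
      positivity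
    · have h1 : ((star (f - 2) (h - f + 2) V).alpha : ℝ) ≤ 1 := by
        exact_mod_cast star_alpha_le hs V
      have hn1 : (1 : ℝ) ≤ n := by
        have : 0 < V.card := Finset.card_pos.mpr hV
        have hn' : V.card = n := hn
        exact_mod_cast (by omega : 1 ≤ n)
      have h2 : (1 : ℝ) ≤ (n : ℝ) ^ β := Real.one_le_rpow hn1 hβ0
      linarith
  · rintro P ⟨V, rfl⟩ e he e' he'
    exact star_no_contain he he'

/-- The quantitative statement: along members of the family, `k → ∞` and
`e(F) = O(k ^ (2 / (h - β - f + 2)))`. -/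
theorem starFam_bound {h f : ℕ} {β : ℝ} (hf : 3 ≤ f) (hβ0 : 0 ≤ β)
    (hβ : (f : ℝ) < h - β) :
    ∃ C : ℝ, 0 < C ∧ ∀ k₀ : ℝ, ∃ P ∈ starFam (f - 2) (h - f + 2), ∃ k : ℝ, k₀ ≤ k ∧ 1 ≤ k ∧
      k * (P.V.card : ℝ) ^ β ≤ P.H.card ∧ (P.F.card : ℝ) ≤ C * k ^ (2 / ((h : ℝ) - β - f + 2)) := by
  have hfh' : (f : ℝ) < h := by linarith
  have hfh : f < h := by exact_mod_cast hfh'
  set t := f - 2 with ht
  set s := h - f + 2 with hsdef
  have hs : 0 < s := by omega
  have hsR : (s : ℝ) = h - f + 2 := by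
    rw [hsdef, Nat.cast_add, Nat.cast_sub hfh.le]; norm_num
  have hh0 : (0 : ℝ) < h := by
    have : (0 : ℝ) ≤ f := Nat.cast_nonneg f
    linarith
  set d : ℝ := (h : ℝ) - β - f + 2 with hd
  have hd0 : 0 < d := by rw [hd]; linarith
  have hds : d = s - β := by rw [hd, hsR]; ring
  -- the constant
  refine ⟨(s : ℝ) ^ 2 * ((h : ℝ) ^ β) ^ (2 / d), by positivity, ?_⟩
  intro k₀
  -- k_N = h^{-β} N^d tends to infinity
  have hlim : Filter.Tendsto (fun N : ℕ => ((h : ℝ) ^ β)⁻¹ * (N : ℝ) ^ d) Filter.atTop Filter.atTop := by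
    apply Filter.Tendsto.const_mul_atTop (by positivity)
    exact (tendsto_rpow_atTop hd0).comp tendsto_natCast_atTop_atTop
  obtain ⟨N, hN⟩ := ((hlim.eventually_ge_atTop (max k₀ 1)).and
    (Filter.eventually_ge_atTop 1)).exists
  obtain ⟨hN1, hN2⟩ := hN
  set k : ℝ := ((h : ℝ) ^ β)⁻¹ * (N : ℝ) ^ d with hk
  have hNR : (1 : ℝ) ≤ N := by exact_mod_cast hN2
  have hNpos : (0 : ℝ) < N := by linarith
  refine ⟨star t s (bigV t s N), ⟨_, rfl⟩, k, (le_max_left _ _).trans hN1,
    (le_max_right _ _).trans hN1, ?_, ?_⟩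
  · -- k n^β ≤ N^s
    have hV : (star t s (bigV t s N)).V = bigV t s N := rfl
    rw [hV]
    have hc1 : ((bigV t s N).card : ℝ) ≤ h * N := by
      have h1 := bigV_card_le t s N
      have h2 : t + s * N ≤ h * N := by
        have : t + s = h := by omega
        calc t + s * N ≤ t * N + s * N := by nlinarith
          _ = h * N := by rw [← add_mul, this]
      exact_mod_cast h1.trans h2
    have hc2 : ((bigV t s N).card : ℝ) ^ β ≤ (h : ℝ) ^ β * (N : ℝ) ^ β := by
      rw [← Real.mul_rpow hh0.le hNpos.le]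
      exact Real.rpow_le_rpow (Nat.cast_nonneg _) hc1 hβ0
    have hk0 : 0 ≤ k := by rw [hk]; positivity
    calc k * ((bigV t s N).card : ℝ) ^ β ≤ k * ((h : ℝ) ^ β * (N : ℝ) ^ β) :=
          mul_le_mul_of_nonneg_left hc2 hk0
      _ = (N : ℝ) ^ d * (N : ℝ) ^ β := by
          rw [hk]
          have : (h : ℝ) ^ β ≠ 0 := (Real.rpow_pos_of_pos hh0 β).ne'
          field_simp
      _ = (N : ℝ) ^ s := by
          rw [← Real.rpow_add hNpos, hds]
          have : (s : ℝ) - β + β = s := by ring
          rw [this, Real.rpow_natCast]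
      _ ≤ _ := by exact_mod_cast H_card_ge t s N
  · have h1 : ((star t s (bigV t s N)).F.card : ℝ) ≤ ((s : ℝ) * N) ^ 2 := by
      exact_mod_cast F_card_le t s N
    refine h1.trans (le_of_eq ?_)
    have hkd : (h : ℝ) ^ β * k = (N : ℝ) ^ d := by
      rw [hk]
      have : (h : ℝ) ^ β ≠ 0 := (Real.rpow_pos_of_pos hh0 β).ne'
      field_simp
    have hk0 : 0 ≤ k := by rw [hk]; positivity
    rw [mul_assoc, ← Real.mul_rpow (by positivity) hk0, hkd, ← Real.rpow_mul hNpos.le]
    have : d * (2 / d) = (2 : ℕ) := by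
      field_simp
      norm_num
    rw [this, Real.rpow_natCast, mul_pow]

/-- **Answer to the question (negative).** For all `h, f, f'` and real `β` with `3 ≤ f ≤ f'`,
`0 ≤ β` and `f < h - β` there is a family of hypergraph pairs which satisfies all hypotheses (*)
(hereditary, `(h, f, f')`-bounded, `ex(n) = O(n ^ β)`, `f < h - β`, no `F`-edge inside an
`H`-edge), for which the claimed bound `e(F) ≥ c k ^ (f / (h - β))` fails for every choice of
`k₀` and `c > 0`; in fact, for a suitable constant `C` it has members with arbitrarily large `k`,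
`e(H) ≥ k n ^ β`, and only `e(F) ≤ C k ^ (2 / (h - β - f + 2))`. -/
theorem result (h f f' : ℕ) (β : ℝ) (hf : 3 ≤ f) (hff : f ≤ f') (hβ0 : 0 ≤ β)
    (hβ : (f : ℝ) < h - β) :
    ∃ Fam : Set HPair, Hyp Fam h f f' β ∧ ¬ Supersat Fam h f β ∧
      ∃ C : ℝ, ∀ k₀ : ℝ, ∃ P ∈ Fam, ∃ k : ℝ, k₀ ≤ k ∧
        k * (P.V.card : ℝ) ^ β ≤ P.H.card ∧
        (P.F.card : ℝ) ≤ C * k ^ (2 / ((h : ℝ) - β - f + 2)) := by
  obtain ⟨C, hC0, hC⟩ := starFam_bound (h := h) (f := f) (β := β) hf hβ0 hβ
  refine ⟨starFam (f - 2) (h - f + 2), starFam_hyp hf hff hβ0 hβ, ?_, C, fun k₀ => ?_⟩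
  · rintro ⟨k₀, c, hc, hall⟩
    set γ : ℝ := 2 / ((h : ℝ) - β - f + 2) with hγ
    set γ' : ℝ := (f : ℝ) / (h - β) with hγ'
    have hf3 : (3 : ℝ) ≤ f := by exact_mod_cast hf
    have hlt : 0 < γ' - γ := by
      rw [hγ, hγ', sub_pos, div_lt_div_iff₀ (by linarith) (by linarith)]
      nlinarith
    have hlim : Filter.Tendsto (fun k : ℝ => k ^ (γ' - γ)) Filter.atTop Filter.atTop :=
      tendsto_rpow_atTop hlt
    obtain ⟨K, hK⟩ := Filter.eventually_atTop.mp (hlim.eventually_gt_atTop (C / c))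
    obtain ⟨P, hP, k, hk1, hk2, hk3, hk4⟩ := hC (max k₀ K)
    have h1 := hall P.V.card P hP rfl k ((le_max_left _ _).trans hk1) hk3
    have h2 := hK k ((le_max_right _ _).trans hk1)
    have hk0 : 0 < k := by linarith
    have h3 : c * k ^ γ' = c * k ^ (γ' - γ) * k ^ γ := by
      rw [mul_assoc, ← Real.rpow_add hk0]
      congr 2
      ring
    have h4 : C < c * k ^ (γ' - γ) := by
      rw [div_lt_iff₀ hc] at h2
      linarith
    have h5 : 0 < k ^ γ := Real.rpow_pos_of_pos hk0 γ
    have h6 : C * k ^ γ < c * k ^ (γ' - γ) * k ^ γ := mul_lt_mul_of_pos_right h4 h5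
    linarith
  · obtain ⟨P, hP, k, hk1, _, hk3, hk4⟩ := hC k₀
    exact ⟨P, hP, k, hk1, hk3, hk4⟩

end Pool.Agent.Results.MP_362e7f_co.Disproof
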